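import Pool.Agent.W279.Tri.Tridegree

/-!
# Mazur's question for the triquadratic K3 surfaces (helper279)

`X ⊂ P¹ × P¹ × P¹` is the surface `F = 0`, where `F` is an irreducible polynomial of tridegree
`(2,2,2)` over a number field `K`.  A point of the product of three projective lines over a field
`E` is given by three nonzero vectors `p 0, p 1, p 2 : Fin 2 → E`.

If `X` has finitely many singular points and contains no fibre of the three projections to
`P¹ × P¹`, then the Zariski closures of the rational points near the points of `X(K_v)`, for all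
places `v` together, are: the empty set, `X`, and finitely many `K`-rational points.
-/

set_option autoImplicit false

namespace Pool.Agent.Results.MP_f9f755_nt.TriquadraticK3

open MvPolynomial Pool.Agent.W279.Tri

universe u v

/-- The ideal of the local Zariski closure `Z_x` at the point `x` with values in the field `L`
(via `σ : K → L`): the polynomials which vanish at all representatives of all the `K`-rational
points of `F = 0` having a representative in some fixed neighbourhood of `x`. -/
def localIdeal {K : Type u} [Field K] (F : MvPolynomial (Fin 3 × Fin 2) K)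
    {L : Type v} [NontriviallyNormedField L] (σ : K →+* L) (x : Fin 3 → Fin 2 → L) :
    Set (MvPolynomial (Fin 3 × Fin 2) K) :=
  {f | ∃ U ∈ nhds x, ∀ y : Fin 3 → Fin 2 → K, (∀ i, y i ≠ 0) →
    eval (fun q => y q.1 q.2) F = 0 →
    (∃ d : Fin 3 → L, (∀ i, d i ≠ 0) ∧ (fun i a => d i * σ (y i a)) ∈ U) →
    ∀ t : Fin 3 → K, eval (fun q => t q.1 * y q.1 q.2) f = 0}

/-- **Mazur's question for the triquadratic surfaces.** -/
theorem result :
    ∀ (K : Type u) [Field K] [NumberField K] (F : MvPolynomial (Fin 3 × Fin 2) K),
      Irreducible F →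
      -- `F` has the tridegree `(2,2,2)`
      (∀ m ∈ F.support, ∀ i : Fin 3, m (i, 0) + m (i, 1) = 2) →
      -- no fibre of the projections to two of the factors lies on the surface
      (∀ (i : Fin 3) (p : Fin 3 → Fin 2 → AlgebraicClosure K), (∀ j, p j ≠ 0) →
        ∃ w : Fin 2 → AlgebraicClosure K,
          aeval (fun q : Fin 3 × Fin 2 => Function.update p i w q.1 q.2) F ≠ 0) →
      -- the surface has only finitely many singular points
      (∃ S : Set (Fin 3 → Fin 2 → AlgebraicClosure K), S.Finite ∧
        ∀ p : Fin 3 → Fin 2 → AlgebraicClosure K, (∀ i, p i ≠ 0) →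
          (∀ q : Fin 3 × Fin 2, aeval (fun r : Fin 3 × Fin 2 => p r.1 r.2) (pderiv q F) = 0) →
          ∃ s ∈ S, ∀ i, ∃ t : AlgebraicClosure K, p i = t • s i) →
      -- then, with a finite set `T` of rational points,
      ∃ T : Set (Fin 3 → Fin 2 → K), T.Finite ∧
        (∀ P ∈ T, (∀ i, P i ≠ 0) ∧ eval (fun q => P q.1 q.2) F = 0) ∧
        -- for all completions `L` of `K` and all points `x` of the surface over `L`
        ∀ (L : Type v) [NontriviallyNormedField L] [CompleteSpace L] (σ : K →+* L),
          DenseRange σ → ∀ x : Fin 3 → Fin 2 → L, (∀ i, x i ≠ 0) →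
            eval₂ σ (fun q => x q.1 q.2) F = 0 →
            -- the local closure is empty,
            localIdeal F σ x = Set.univ ∨
            -- or it is the whole surface,
            localIdeal F σ x = {f | F ∣ f} ∨
            -- or it is the single point `x`, which lies in `T`
            ∃ P ∈ T, (∃ d : Fin 3 → L, (∀ i, d i ≠ 0) ∧ ∀ i a, x i a = d i * σ (P i a)) ∧
              localIdeal F σ x = {f | ∀ t : Fin 3 → K, eval (fun q => t q.1 * P q.1 q.2) f = 0} := by
  intro K _ _ F hirr hdeg hl hs
  obtain ⟨c, rfl⟩ := exists_form hdeg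
  obtain ⟨T, hT, hT1, h⟩ := main_form hirr hl hs
  refine ⟨T, hT, fun P hP => ⟨(hT1 P hP).1, ?_⟩, ?_⟩
  · rw [eval_form]
    exact (hT1 P hP).2
  · intro L _ _ σ hσ x hx _
    have hJ : localIdeal (form c) σ x = Jx c σ x := by
      ext f
      constructor
      · rintro ⟨U, hU, hf⟩
        exact ⟨U, hU, fun y hy => hf y hy.1 (by rw [eval_form]; exact hy.2.1) hy.2.2⟩
      · rintro ⟨U, hU, hf⟩
        exact ⟨U, hU, fun y h1 h2 h3 => hf y ⟨h1, by rw [eval_form] at h2; exact h2, h3⟩⟩
    rw [hJ]
    rcases h L σ hσ x hx with h | h | ⟨P, hP, hPx, h⟩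
    · exact Or.inl h
    · exact Or.inr (Or.inl h)
    · refine Or.inr (Or.inr ⟨P, hP, ?_, h⟩)
      choose d hd0 hd using hPx
      exact ⟨d, hd0, fun i a => by rw [hd i]; rfl⟩

end Pool.Agent.Results.MP_f9f755_nt.TriquadraticK3
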